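import Mathlib

/-!
Existence of universal unital C*-algebras for bounded generators and relations.
-/

set_option autoImplicit false

namespace Pool.Agent.H94R2.UC

open scoped ENNReal

noncomputable section

/-- A class of admissible families of generators `X → B` in unital C*-algebras. -/
structure Scheme (X : Type) where
  P : ∀ (B : Type) [CStarAlgebra B], (X → B) → Prop
  bdd : ∀ (B : Type) [CStarAlgebra B] (q : X → B), P B q → ∀ x, ‖q x‖ ≤ 1
  refl : ∀ (B B' : Type) [CStarAlgebra B] [CStarAlgebra B'] (f : B →⋆ₐ[ℂ] B') (q : X → B),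
    Function.Injective f → P B' (fun x => f (q x)) → P B q
  prod : ∀ (I : Type) (B : I → Type) [∀ i, CStarAlgebra (B i)] (C : Type) [CStarAlgebra C]
    (e : ∀ i, C →⋆ₐ[ℂ] B i) (q : X → C), (∀ y z : C, (∀ i, e i y = e i z) → y = z) →
    (∀ i, P (B i) (fun x => e i (q x))) → P C q

variable {X : Type}

/-- evaluation of noncommutative *-polynomials -/
def ev {B : Type} [CStarAlgebra B] (q : X → B) : FreeAlgebra ℂ (X ⊕ X) →ₐ[ℂ] B :=
  FreeAlgebra.lift ℂ (Sum.elim q (fun x => star (q x)))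

theorem ev_map {B B' : Type} [CStarAlgebra B] [CStarAlgebra B'] (f : B →⋆ₐ[ℂ] B') (q : X → B)
    (w : FreeAlgebra ℂ (X ⊕ X)) : f (ev q w) = ev (fun x => f (q x)) w := by
  have : (f : B →ₐ[ℂ] B').comp (ev q) = ev (fun x => f (q x)) := by
    apply FreeAlgebra.hom_ext
    funext x
    rcases x with x | x
    · simp [ev]
    · simp [ev, map_star]
  exact DFunLike.congr_fun this w

theorem ev_star {B : Type} [CStarAlgebra B] (q : X → B) (w : FreeAlgebra ℂ (X ⊕ X)) :
    ∃ w', ev q w' = star (ev q w) := by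
  induction w using FreeAlgebra.induction with
  | grade0 r =>
    refine ⟨algebraMap ℂ _ (star r), ?_⟩
    rw [AlgHom.commutes, AlgHom.commutes, Algebra.algebraMap_eq_smul_one,
      Algebra.algebraMap_eq_smul_one, star_smul, star_one]
  | grade1 x =>
    rcases x with x | x
    · refine ⟨FreeAlgebra.ι ℂ (Sum.inr x), ?_⟩
      simp [ev]
    · refine ⟨FreeAlgebra.ι ℂ (Sum.inl x), ?_⟩
      simp [ev]
  | mul a b ha hb =>
    obtain ⟨a', ha⟩ := ha
    obtain ⟨b', hb⟩ := hb
    refine ⟨b' * a', ?_⟩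
    rw [map_mul, map_mul, star_mul, ha, hb]
  | add a b ha hb =>
    obtain ⟨a', ha⟩ := ha
    obtain ⟨b', hb⟩ := hb
    refine ⟨a' + b', ?_⟩
    rw [map_add, map_add, star_add, ha, hb]

theorem adjoin_ev {B : Type} [CStarAlgebra B] (q : X → B) (y : B)
    (hy : y ∈ StarAlgebra.adjoin ℂ (Set.range q)) : ∃ w, ev q w = y := by
  induction hy using StarAlgebra.adjoin_induction with
  | mem x hx =>
    obtain ⟨x, rfl⟩ := hx
    exact ⟨FreeAlgebra.ι ℂ (Sum.inl x), by simp [ev]⟩
  | algebraMap r => exact ⟨algebraMap ℂ _ r, by rw [AlgHom.commutes]⟩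
  | add a b _ _ ha hb =>
    obtain ⟨a', ha⟩ := ha
    obtain ⟨b', hb⟩ := hb
    exact ⟨a' + b', by rw [map_add, ha, hb]⟩
  | mul a b _ _ ha hb =>
    obtain ⟨a', ha⟩ := ha
    obtain ⟨b', hb⟩ := hb
    exact ⟨a' * b', by rw [map_mul, ha, hb]⟩
  | star a _ ha =>
    obtain ⟨a', ha⟩ := ha
    obtain ⟨w, hw⟩ := ev_star q a'
    exact ⟨w, by rw [hw, ha]⟩

theorem ev_mem {B : Type} [CStarAlgebra B] (q : X → B) (w : FreeAlgebra ℂ (X ⊕ X)) :
    ev q w ∈ StarAlgebra.adjoin ℂ (Set.range q) := by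
  have hsub : ∀ x, q x ∈ StarAlgebra.adjoin ℂ (Set.range q) :=
    fun x => StarAlgebra.subset_adjoin ℂ _ ⟨x, rfl⟩
  induction w using FreeAlgebra.induction with
  | grade0 r => rw [AlgHom.commutes]; exact algebraMap_mem _ _
  | grade1 x =>
    rcases x with x | x
    · simpa [ev] using hsub x
    · simpa [ev] using star_mem (hsub x)
  | mul a b ha hb => rw [map_mul]; exact mul_mem ha hb
  | add a b ha hb => rw [map_add]; exact add_mem ha hb

theorem hom_norm_le {B B' : Type} [CStarAlgebra B] [CStarAlgebra B'] (f : B →⋆ₐ[ℂ] B') (b : B) :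
    ‖f b‖ ≤ ‖b‖ := NonUnitalStarAlgHom.norm_apply_le f b

theorem hom_cont {B B' : Type} [CStarAlgebra B] [CStarAlgebra B'] (f : B →⋆ₐ[ℂ] B') :
    Continuous f :=
  AddMonoidHomClass.continuous_of_bound f 1 (fun b => by rw [one_mul]; exact hom_norm_le f b)

section lpC

variable {I : Type} (B : I → Type) [∀ i, CStarAlgebra (B i)] [∀ i, Nontrivial (B i)]

instance : CStarAlgebra (lp B ∞) where

/-- coordinate projection -/
def coord (i : I) : lp B ∞ →⋆ₐ[ℂ] B i where
  toFun f := f i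
  map_one' := rfl
  map_mul' _ _ := rfl
  map_zero' := rfl
  map_add' _ _ := rfl
  commutes' _ := rfl
  map_star' _ := rfl

end lpC

/-- **Existence of universal C*-algebras.** -/
theorem exists_universal (S : Scheme X) :
    ∃ (A : Type) (_ : CStarAlgebra A) (p : X → A), S.P A p ∧
      ∀ (B : Type) [CStarAlgebra B] (q : X → B), S.P B q →
        ∃! φ : A →⋆ₐ[ℂ] B, ∀ x, φ (p x) = q x := by
  classical
  let I : Type := {wr : FreeAlgebra ℂ (X ⊕ X) × ℚ // ∃ (B : Type) (_ : CStarAlgebra B)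
    (_ : Nontrivial B) (q : X → B), S.P B q ∧ (wr.2 : ℝ) < ‖ev q wr.1‖}
  choose Bf instB ntB qf hqf using fun i : I => i.2
  let pt : X → lp Bf ∞ := fun x => ⟨fun i => qf i x, memℓp_infty ⟨1, by
    rintro _ ⟨i, rfl⟩
    exact S.bdd _ _ (hqf i).1 x⟩⟩
  have hco : ∀ i x, coord Bf i (pt x) = qf i x := fun i x => rfl
  let A0 : StarSubalgebra ℂ (lp Bf ∞) := (StarAlgebra.adjoin ℂ (Set.range pt)).topologicalClosure
  have hcl : IsClosed (A0 : Set (lp Bf ∞)) := StarSubalgebra.isClosed_topologicalClosure _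
  let instA : CStarAlgebra A0 := StarSubalgebra.cstarAlgebra A0
  let p : X → A0 := fun x => ⟨pt x, StarSubalgebra.le_topologicalClosure _
    (StarAlgebra.subset_adjoin ℂ _ ⟨x, rfl⟩)⟩
  have hPt : S.P (lp Bf ∞) pt := by
    refine S.prod I Bf (lp Bf ∞) (coord Bf) pt ?_ ?_
    · intro y z h
      apply lp.ext
      funext i
      exact h i
    · intro i
      exact (hqf i).1
  have hP : S.P A0 p := S.refl A0 (lp Bf ∞) A0.subtype p (fun a b h => Subtype.ext h) hPt
  -- density of the algebra generated by `p` in `A0`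
  have hdense : ∀ T : StarSubalgebra ℂ A0, IsClosed (T : Set A0) → (∀ x, p x ∈ T) → T = ⊤ := by
    intro T hT hx
    rw [eq_top_iff]
    rintro ⟨a, ha⟩ -
    have hTc : IsClosed (T.map A0.subtype : Set (lp Bf ∞)) := by
      rw [StarSubalgebra.coe_map]
      exact hcl.isClosedEmbedding_subtypeVal.isClosedMap _ hT
    have hle : A0 ≤ T.map A0.subtype := by
      apply StarSubalgebra.topologicalClosure_minimal _ hTc
      rw [StarAlgebra.adjoin_le_iff]
      rintro _ ⟨x, rfl⟩
      exact ⟨p x, hx x, rfl⟩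
    obtain ⟨b, hb, hba⟩ := hle ha
    have : b = ⟨a, ha⟩ := Subtype.ext hba
    rw [← this]; exact hb
  -- the norm inequality
  have hnorm : ∀ (B : Type) [CStarAlgebra B] (q : X → B), S.P B q →
      ∀ w, ‖ev q w‖ ≤ ‖ev p w‖ := by
    intro B _ q hq w
    rcases subsingleton_or_nontrivial B with hB | hB
    · rw [Subsingleton.elim (ev q w) 0, norm_zero]; exact norm_nonneg _
    · by_contra hlt
      push Not at hlt
      obtain ⟨r, hr1, hr2⟩ := exists_rat_btwn hlt
      let i : I := ⟨(w, r), B, inferInstance, hB, q, hq, hr2⟩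
      have h1 : (r : ℝ) < ‖ev (qf i) w‖ := (hqf i).2
      have h2 : ev (qf i) w = coord Bf i (A0.subtype (ev p w)) := by
        rw [ev_map, ev_map]
        rfl
      have h3 : ‖ev (qf i) w‖ ≤ ‖ev p w‖ := by
        rw [h2]
        exact (hom_norm_le _ _).trans (hom_norm_le A0.subtype _)
      linarith
  refine ⟨A0, instA, p, hP, fun B _ q hq => ?_⟩
  -- the graph algebra
  let gr : X → A0 × B := fun x => (p x, q x)
  let E : StarSubalgebra ℂ (A0 × B) := (StarAlgebra.adjoin ℂ (Set.range gr)).topologicalClosure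
  have hEcl : IsClosed (E : Set (A0 × B)) := StarSubalgebra.isClosed_topologicalClosure _
  let instE : CStarAlgebra E := StarSubalgebra.cstarAlgebra E
  have hEn : ∀ e ∈ E, ‖e.2‖ ≤ ‖e.1‖ := by
    have hclosed : IsClosed {e : A0 × B | ‖e.2‖ ≤ ‖e.1‖} :=
      isClosed_le (by fun_prop) (by fun_prop)
    intro e he
    have : e ∈ closure ((StarAlgebra.adjoin ℂ (Set.range gr) : StarSubalgebra ℂ (A0 × B)) :
        Set (A0 × B)) := by
      rw [← StarSubalgebra.topologicalClosure_coe]; exact he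
    refine closure_minimal ?_ hclosed this
    intro y hy
    obtain ⟨w, rfl⟩ := adjoin_ev gr y hy
    have h1 : (ev gr w).1 = ev p w := by
      have := ev_map (StarAlgHom.fst ℂ A0 B) gr w
      exact this
    have h2 : (ev gr w).2 = ev q w := by
      have := ev_map (StarAlgHom.snd ℂ A0 B) gr w
      exact this
    show ‖(ev gr w).2‖ ≤ ‖(ev gr w).1‖
    rw [h1, h2]
    exact hnorm B q hq w
  let π₁ : E →⋆ₐ[ℂ] A0 := (StarAlgHom.fst ℂ A0 B).comp E.subtype
  let π₂ : E →⋆ₐ[ℂ] B := (StarAlgHom.snd ℂ A0 B).comp E.subtype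
  have hiso : Isometry π₁ := by
    refine AddMonoidHomClass.isometry_of_norm π₁ (fun e => ?_)
    show ‖(e : A0 × B).1‖ = ‖(e : A0 × B)‖
    rw [Prod.norm_def, max_eq_left (hEn e e.2)]
  have hsurj : Function.Surjective π₁ := by
    have hrc : IsClosed (π₁.range : Set A0) := by
      have := hiso.isClosedEmbedding.isClosed_range
      exact this
    have hr := hdense π₁.range hrc (fun x => ?_)
    · intro a
      have : a ∈ π₁.range := by rw [hr]; trivial
      exact this
    · refine ⟨⟨gr x, StarSubalgebra.le_topologicalClosure _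
        (StarAlgebra.subset_adjoin ℂ _ ⟨x, rfl⟩)⟩, rfl⟩
  let eq : E ≃⋆ₐ[ℂ] A0 := StarAlgEquiv.ofBijective π₁ ⟨hiso.injective, hsurj⟩
  have huniq : ∀ φ ψ : A0 →⋆ₐ[ℂ] B, (∀ x, φ (p x) = q x) → (∀ x, ψ (p x) = q x) → φ = ψ := by
    intro φ ψ h1 h2
    have hT := hdense (StarAlgHom.equalizer φ ψ) ?_ ?_
    · apply StarAlgHom.ext
      intro a
      have : a ∈ StarAlgHom.equalizer φ ψ := by rw [hT]; trivial
      exact this
    · exact isClosed_eq (hom_cont φ) (hom_cont ψ)
    · intro x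
      show φ (p x) = ψ (p x)
      rw [h1, h2]
  have hex : ∃ φ : A0 →⋆ₐ[ℂ] B, ∀ x, φ (p x) = q x := by
    refine ⟨π₂.comp (eq.symm : A0 →⋆ₐ[ℂ] E), fun x => ?_⟩
    have h0 : eq ⟨gr x, StarSubalgebra.le_topologicalClosure _
        (StarAlgebra.subset_adjoin ℂ _ ⟨x, rfl⟩)⟩ = p x := rfl
    show π₂ (eq.symm (p x)) = q x
    rw [← h0, StarAlgEquiv.symm_apply_apply]
    rfl
  obtain ⟨φ, hφ⟩ := hex
  exact ⟨φ, hφ, fun ψ hψ => huniq ψ φ hψ hφ⟩

end

end Pool.Agent.H94R2.UC
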