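import Mathlib
import Pool.Agent.H94R2.UC

/-!
Definitions around the graph isomorphism game algebra, and the magic square graphs.
-/

set_option autoImplicit false

namespace Pool.Agent.H94R2.Iso

open Pool.Agent.H94R2.UC

/-- `g, g'` stand in the same relation in `G` as `h, h'` do in `H`: both pairs are equal, or both
are adjacent, or both are distinct and non-adjacent. -/
def SameRel {V W : Type} (G : SimpleGraph V) (H : SimpleGraph W) (g g' : V) (h h' : W) : Prop :=
  (g = g' ∧ h = h') ∨ (G.Adj g g' ∧ H.Adj h h') ∨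
    (g ≠ g' ∧ ¬ G.Adj g g' ∧ h ≠ h' ∧ ¬ H.Adj h h')

/-- The defining relations of the isomorphism game algebra, for a family `p` of elements of a
unital C*-algebra `B`. -/
structure IsoGameRel {V W : Type} [Fintype V] [Fintype W] (G : SimpleGraph V) (H : SimpleGraph W)
    {B : Type} [CStarAlgebra B] (p : V → W → B) : Prop where
  idem : ∀ g h, p g h * p g h = p g h
  selfadj : ∀ g h, star (p g h) = p g h
  row : ∀ g, ∑ h, p g h = 1
  col : ∀ h, ∑ g, p g h = 1
  zero : ∀ g g' h h', ¬ SameRel G H g g' h h' → p g h * p g' h' = 0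

/-- `(A, p)` is the isomorphism game algebra of `G` and `H`: the universal unital C*-algebra
generated by a family `p` satisfying the relations. -/
structure IsIsoGameAlgebra {V W : Type} [Fintype V] [Fintype W] (G : SimpleGraph V)
    (H : SimpleGraph W) (A : Type) [CStarAlgebra A] (p : V → W → A) : Prop where
  rel : IsoGameRel G H p
  univ : ∀ (B : Type) [CStarAlgebra B] (q : V → W → B), IsoGameRel G H q →
    ∃! φ : A →⋆ₐ[ℂ] B, ∀ g h, φ (p g h) = q g h

/-- `(C, u)` is the full group C*-algebra of the group `Γ`: the universal unital C*-algebra with a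
unitary representation of `Γ`. -/
structure IsFullGroupCStar (Γ : Type) [Group Γ] (C : Type) [CStarAlgebra C] (u : Γ →* C) :
    Prop where
  unit : ∀ g, u g ∈ unitary C
  univ : ∀ (B : Type) [CStarAlgebra B] (v : Γ →* B), (∀ g, v g ∈ unitary B) →
    ∃! φ : C →⋆ₐ[ℂ] B, ∀ g, φ (u g) = v g

section Existence

variable {V W : Type} [Fintype V] [Fintype W]

theorem proj_norm_le {B : Type} [CStarAlgebra B] (a : B) (h1 : a * a = a) (h2 : star a = a) :
    ‖a‖ ≤ 1 := by
  have h : ‖a‖ * ‖a‖ = ‖a‖ := by
    have := CStarRing.norm_star_mul_self (x := a)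
    rw [h2, h1] at this
    exact this.symm
  by_contra hlt
  push Not at hlt
  have h0 : ‖a‖ ≠ 0 := by linarith
  have := mul_right_cancel₀ h0 (h.trans (one_mul _).symm)
  linarith

theorem IsoGameRel.map {G : SimpleGraph V} {H : SimpleGraph W} {B B' : Type} [CStarAlgebra B]
    [CStarAlgebra B'] {p : V → W → B} (hp : IsoGameRel G H p) (f : B →⋆ₐ[ℂ] B') :
    IsoGameRel G H (fun g h => f (p g h)) where
  idem g h := by rw [← map_mul, hp.idem]
  selfadj g h := by rw [← map_star, hp.selfadj]
  row g := by rw [← map_sum, hp.row, map_one]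
  col h := by rw [← map_sum, hp.col, map_one]
  zero g g' h h' hn := by rw [← map_mul, hp.zero g g' h h' hn, map_zero]

/-- separation principle for the relations -/
theorem IsoGameRel.of_sep {G : SimpleGraph V} {H : SimpleGraph W} {C : Type} [CStarAlgebra C]
    {I : Type} (B : I → Type) [∀ i, CStarAlgebra (B i)] (e : ∀ i, C →⋆ₐ[ℂ] B i)
    (hsep : ∀ y z : C, (∀ i, e i y = e i z) → y = z) (p : V → W → C)
    (h : ∀ i, IsoGameRel G H (fun g h => e i (p g h))) : IsoGameRel G H p where
  idem g h' := hsep _ _ fun i => by rw [map_mul, (h i).idem]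
  selfadj g h' := hsep _ _ fun i => by rw [map_star, (h i).selfadj]
  row g := hsep _ _ fun i => by rw [map_sum, (h i).row, map_one]
  col h' := hsep _ _ fun i => by rw [map_sum, (h i).col, map_one]
  zero g g' h' h'' hn := hsep _ _ fun i => by rw [map_mul, (h i).zero g g' h' h'' hn, map_zero]

/-- the isomorphism game algebra exists -/
theorem exists_isoGameAlgebra (G : SimpleGraph V) (H : SimpleGraph W) :
    ∃ (A : Type) (_ : CStarAlgebra A) (p : V → W → A), IsIsoGameAlgebra G H A p := by
  let S : Scheme (V × W) :=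
    { P := fun B _ q => IsoGameRel G H (fun g h => q (g, h))
      bdd := fun B _ q hq x => proj_norm_le _ (hq.idem x.1 x.2) (hq.selfadj x.1 x.2)
      refl := fun B B' _ _ f q hf hq => by
        refine IsoGameRel.of_sep (I := Unit) (fun _ => B') (fun _ => f) ?_ _ (fun _ => hq)
        intro y z h
        exact hf (h ())
      prod := fun I B _ C _ e q hsep h => IsoGameRel.of_sep B e hsep _ h }
  obtain ⟨A, instA, p, hp, hu⟩ := exists_universal S
  refine ⟨A, instA, fun g h => p (g, h), ⟨hp, ?_⟩⟩
  intro B _ q hq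
  obtain ⟨φ, h1, h2⟩ := hu B (fun x => q x.1 x.2) hq
  refine ⟨φ, fun g h => h1 (g, h), fun ψ hψ => h2 ψ (fun x => hψ x.1 x.2)⟩

/-- the full group C*-algebra exists -/
theorem exists_fullGroupCStar (Γ : Type) [Group Γ] :
    ∃ (C : Type) (_ : CStarAlgebra C) (u : Γ →* C), IsFullGroupCStar Γ C u := by
  let S : Scheme Γ :=
    { P := fun B _ q => (q 1 = 1 ∧ ∀ x y, q (x * y) = q x * q y) ∧ ∀ x, q x ∈ unitary B
      bdd := fun B _ q hq x => by
        rcases subsingleton_or_nontrivial B with hB | hB
        · rw [Subsingleton.elim (q x) 0, norm_zero]; exact zero_le_one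
        · exact (CStarRing.norm_of_mem_unitary (hq.2 x)).le
      refl := fun B B' _ _ f q hf hq => by
        refine ⟨⟨hf (by rw [map_one]; exact hq.1.1), fun x y => hf (by
          rw [map_mul]; exact hq.1.2 x y)⟩, fun x => ?_⟩
        have := hq.2 x
        rw [Unitary.mem_iff] at this ⊢
        refine ⟨hf ?_, hf ?_⟩
        · rw [map_mul, map_star, map_one]; exact this.1
        · rw [map_mul, map_star, map_one]; exact this.2
      prod := fun I B _ C _ e q hsep h => by
        refine ⟨⟨hsep _ _ fun i => by rw [map_one]; exact (h i).1.1, fun x y => hsep _ _ fun i => by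
          rw [map_mul]; exact (h i).1.2 x y⟩, fun x => ?_⟩
        rw [Unitary.mem_iff]
        refine ⟨hsep _ _ fun i => ?_, hsep _ _ fun i => ?_⟩
        · have := (Unitary.mem_iff.1 ((h i).2 x)).1
          rw [map_mul, map_star, map_one]; exact this
        · have := (Unitary.mem_iff.1 ((h i).2 x)).2
          rw [map_mul, map_star, map_one]; exact this }
  obtain ⟨C, instC, p, hp, hu⟩ := exists_universal S
  refine ⟨C, instC, { toFun := p, map_one' := hp.1.1, map_mul' := hp.1.2 }, ⟨hp.2, ?_⟩⟩
  intro B _ v hv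
  obtain ⟨φ, h1, h2⟩ := hu B v ⟨⟨map_one v, map_mul v⟩, hv⟩
  exact ⟨φ, h1, h2⟩

end Existence

end Pool.Agent.H94R2.Iso
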