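import Mathlib
import Pool.Agent.H94R2.MagicSq

/-!
The two magic square graphs.
-/

set_option autoImplicit false

namespace Pool.Agent.H94R2.Iso

open Matrix

/-- Vertices of the magic square graphs: an equation (three rows `0,1,2`, three columns `3,4,5`)
with the values of its first two variables. -/
abbrev MV : Type := Fin 6 × (ZMod 2 × ZMod 2)

/-- The values of the three variables of the equation `v.1`, whose right-hand side is
`b v.1`. -/
def val (b : Fin 6 → ZMod 2) (v : MV) : Fin 3 → ZMod 2 :=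
  ![v.2.1, v.2.2, b v.1 + v.2.1 + v.2.2]

/-- The graph of the magic square system with right-hand side `b`: two vertices are adjacent if
they are contradictory assignments of the same equation or of a row and a column. -/
def MG (b : Fin 6 → ZMod 2) : SimpleGraph MV where
  Adj v w := (v.1 = w.1 ∧ v.2 ≠ w.2) ∨
    (∃ i c : Fin 3, v.1 = Fin.castAdd 3 i ∧ w.1 = Fin.natAdd 3 c ∧ val b v c ≠ val b w i) ∨
    (∃ i c : Fin 3, w.1 = Fin.castAdd 3 i ∧ v.1 = Fin.natAdd 3 c ∧ val b w c ≠ val b v i)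
  symm := ⟨by
    rintro v w (h | h | h)
    · exact Or.inl ⟨h.1.symm, h.2.symm⟩
    · exact Or.inr (Or.inr h)
    · exact Or.inr (Or.inl h)⟩
  loopless := ⟨by
    rintro v (h | ⟨i, c, h1, h2, -⟩ | ⟨i, c, h1, h2, -⟩)
    · exact h.2 rfl
    · rw [h1] at h2
      have := congrArg Fin.val h2
      simp at this
      omega
    · rw [h1] at h2
      have := congrArg Fin.val h2
      simp at this
      omega⟩

/-- right-hand side of the inconsistent magic square -/
def bm : Fin 6 → ZMod 2 := ![0, 0, 0, 0, 0, 1]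

/-- right-hand side of the homogeneous magic square -/
def b0 : Fin 6 → ZMod 2 := fun _ => 0

theorem row_ne_col (i c : Fin 3) : (Fin.castAdd 3 i : Fin 6) ≠ Fin.natAdd 3 c := by
  intro h
  have := congrArg Fin.val h
  simp at this
  omega

/-- sum of the values of an assignment -/
theorem val_sum (b : Fin 6 → ZMod 2) (v : MV) : ∑ j, val b v j = b v.1 := by
  obtain ⟨k, s, t⟩ := v
  simp only [val, Fin.sum_univ_three, Matrix.cons_val_zero, Matrix.cons_val_one, Matrix.cons_val]
  generalize b k = x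
  revert s t x
  decide

/-- The two magic square graphs have no classical isomorphism, in the form: the isomorphism game
has no one-dimensional representation. -/
theorem no_character : ¬ ∃ q : MV → MV → ℂ, IsoGameRel (MG bm) (MG b0) q := by
  rintro ⟨q, hq⟩
  have h01 : ∀ g h, q g h = 0 ∨ q g h = 1 := by
    intro g h
    have := hq.idem g h
    have h2 : q g h * (q g h - 1) = 0 := by ring_nf; rw [sq, this]; ring
    rcases mul_eq_zero.1 h2 with h | h
    · exact Or.inl h
    · exact Or.inr (sub_eq_zero.1 h)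
  have hex : ∀ h, ∃ g, q g h = 1 := by
    intro h
    by_contra hne
    push Not at hne
    have := hq.col h
    rw [Finset.sum_eq_zero] at this
    · exact zero_ne_one this
    · intro g _
      rcases h01 g h with h' | h'
      · exact h'
      · exact absurd h' (hne g)
  choose f hf using fun k : Fin 6 => hex (k, ((0 : ZMod 2), (0 : ZMod 2)))
  have hv0 : ∀ k j, val b0 (k, ((0 : ZMod 2), (0 : ZMod 2))) j = 0 := by
    intro k j
    fin_cases j <;> simp [val, b0]
  have hnadj : ∀ k l, ¬ (MG b0).Adj (k, ((0 : ZMod 2), (0 : ZMod 2))) (l, ((0 : ZMod 2), (0 : ZMod 2))) := by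
    rintro k l (h | ⟨i, c, -, -, h3⟩ | ⟨i, c, -, -, h3⟩)
    · exact h.2 rfl
    · rw [hv0, hv0] at h3; exact h3 rfl
    · rw [hv0, hv0] at h3; exact h3 rfl
  have hrel : ∀ k l, k ≠ l → f k ≠ f l ∧ ¬ (MG bm).Adj (f k) (f l) := by
    intro k l hkl
    have h1 : q (f k) (k, (0, 0)) * q (f l) (l, (0, 0)) ≠ 0 := by
      rw [hf k, hf l, one_mul]; exact one_ne_zero
    have h2 : SameRel (MG bm) (MG b0) (f k) (f l) (k, (0, 0)) (l, (0, 0)) := by
      by_contra h
      exact h1 (hq.zero _ _ _ _ h)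
    rcases h2 with h | h | h
    · exact absurd (congrArg Prod.fst h.2) hkl
    · exact absurd h.2 (hnadj k l)
    · exact ⟨h.1, h.2.1⟩
  have hinj : Function.Injective (fun k => (f k).1) := by
    intro k l h
    by_contra hkl
    obtain ⟨h1, h2⟩ := hrel k l hkl
    apply h2
    refine Or.inl ⟨h, fun h3 => h1 (Prod.ext h h3)⟩
  have hbij : Function.Bijective (fun k => (f k).1) := Finite.injective_iff_bijective.1 hinj
  -- choose the representative of every equation
  choose r hr using hbij.2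
  have hcons : ∀ i c : Fin 3, val bm (f (r (Fin.castAdd 3 i))) c =
      val bm (f (r (Fin.natAdd 3 c))) i := by
    intro i c
    by_contra hne
    have h1 : r (Fin.castAdd 3 i) ≠ r (Fin.natAdd 3 c) := by
      intro h
      have h2 := hr (Fin.castAdd 3 i)
      rw [h] at h2
      exact row_ne_col i c (h2.symm.trans (hr (Fin.natAdd 3 c : Fin 6)))
    exact (hrel _ _ h1).2 (Or.inr (Or.inl ⟨i, c, hr _, hr _, hne⟩))
  have hR : ∑ i : Fin 3, ∑ c, val bm (f (r (Fin.castAdd 3 i))) c = 0 := by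
    apply Finset.sum_eq_zero
    intro i _
    rw [val_sum]
    have h3 : (f (r (Fin.castAdd 3 i))).1 = Fin.castAdd 3 i := hr _
    rw [h3]
    fin_cases i <;> decide
  have hC : ∑ c : Fin 3, ∑ i, val bm (f (r (Fin.natAdd 3 c))) i = 1 := by
    have : ∀ c : Fin 3, ∑ i, val bm (f (r (Fin.natAdd 3 c))) i = bm (Fin.natAdd 3 c) := by
      intro c
      rw [val_sum]
      have h3 : (f (r (Fin.natAdd 3 c))).1 = Fin.natAdd 3 c := hr _
      rw [h3]
    simp only [this]
    decide
  rw [Finset.sum_comm] at hC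
  have : (0 : ZMod 2) = 1 := by
    rw [← hR, ← hC]
    exact Finset.sum_congr rfl fun i _ => Finset.sum_congr rfl fun c _ => hcons i c
  exact absurd this (by decide)

/-! ### The quantum solution -/

section quantum

/-- the sign `(-1)^z` -/
def sg (z : ZMod 2) : ℂ := if z = 0 then 1 else -1

theorem sg_sq (z : ZMod 2) : sg z * sg z = 1 := by
  unfold sg; split_ifs <;> norm_num

theorem sg_ne {z w : ZMod 2} (h : z ≠ w) : sg w = - sg z := by
  have : ∀ z w : ZMod 2, z ≠ w → ((z = 0 ∧ w = 1) ∨ (z = 1 ∧ w = 0)) := by decide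
  rcases this z w h with ⟨rfl, rfl⟩ | ⟨rfl, rfl⟩ <;> simp [sg]

theorem sg_star (z : ZMod 2) : star (sg z) = sg z := by
  unfold sg; split_ifs <;> simp

theorem sg_add (z w : ZMod 2) : sg (z + w) = sg z * sg w := by
  have : ∀ z : ZMod 2, z = 0 ∨ z = 1 := by decide
  rcases this z with rfl | rfl <;> rcases this w with rfl | rfl
  · simp [sg]
  · simp [sg]
  · simp [sg]
  · have : (1 + 1 : ZMod 2) = 0 := by decide
    rw [this]; simp [sg]

variable {B : Type} [CStarAlgebra B]

/-- a quantum solution of the magic square: `O k j` is the `j`-th observable of the equation `k` -/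
structure QSol (O : Fin 6 → Fin 3 → B) : Prop where
  sq : ∀ k j, O k j * O k j = 1
  sa : ∀ k j, star (O k j) = O k j
  comm : ∀ k, O k 0 * O k 1 = O k 1 * O k 0
  prod : ∀ k, O k 2 = sg (bm k) • (O k 0 * O k 1)
  share : ∀ i c : Fin 3, O (Fin.castAdd 3 i) c = O (Fin.natAdd 3 c) i

variable {O : Fin 6 → Fin 3 → B}

/-- spectral projections -/
noncomputable def EP (O : Fin 6 → Fin 3 → B) (k : Fin 6) (z : ZMod 2 × ZMod 2) : B :=
  (4 : ℂ)⁻¹ • ((1 + sg z.1 • O k 0) * (1 + sg z.2 • O k 1))

theorem half_sq {a : B} (ha : a * a = 1) (s : ℂ) (hs : s * s = 1) :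
    (1 + s • a) * (1 + s • a) = (2 : ℂ) • (1 + s • a) := by
  rw [mul_add, add_mul, add_mul, smul_mul_smul_comm, ha, hs, one_smul, one_mul, one_mul, mul_one,
    two_smul]
  abel

theorem half_opp {a : B} (ha : a * a = 1) (s : ℂ) (hs : s * s = 1) :
    (1 + s • a) * (1 + (-s) • a) = 0 := by
  rw [mul_add, add_mul, add_mul, smul_mul_smul_comm, ha, mul_neg, hs, one_mul, one_mul, mul_one,
    neg_smul, neg_smul, one_smul]
  abel

theorem half_comm {a b : B} (h : a * b = b * a) (s t : ℂ) :
    (1 + s • a) * (1 + t • b) = (1 + t • b) * (1 + s • a) := by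
  rw [mul_add, add_mul, add_mul, mul_add, add_mul, add_mul, smul_mul_smul_comm, smul_mul_smul_comm,
    h, mul_comm s t, one_mul, one_mul, mul_one, one_mul, mul_one]
  abel

theorem EP_idem (hO : QSol O) (k : Fin 6) (z : ZMod 2 × ZMod 2) :
    EP O k z * EP O k z = EP O k z := by
  have h0 := half_sq (hO.sq k 0) (sg z.1) (sg_sq _)
  have h1 := half_sq (hO.sq k 1) (sg z.2) (sg_sq _)
  have hc := half_comm (hO.comm k) (sg z.1) (sg z.2)
  unfold EP
  set a := 1 + sg z.1 • O k 0
  set b := 1 + sg z.2 • O k 1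
  rw [smul_mul_smul_comm, mul_assoc a b, ← mul_assoc b a b, ← hc, mul_assoc a b b, h1,
    mul_smul_comm, mul_smul_comm, ← mul_assoc, h0, smul_mul_assoc, smul_smul, smul_smul]
  congr 1
  norm_num

theorem EP_ortho (hO : QSol O) (k : Fin 6) (z w : ZMod 2 × ZMod 2) (h : z ≠ w) :
    EP O k z * EP O k w = 0 := by
  have hc : ∀ s t, (1 + s • O k 0) * (1 + t • O k 1) = (1 + t • O k 1) * (1 + s • O k 0) :=
    fun s t => half_comm (hO.comm k) s t
  unfold EP
  rw [smul_mul_smul_comm]
  by_cases h1 : z.1 = w.1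
  · have h2 : z.2 ≠ w.2 := fun h2 => h (Prod.ext h1 h2)
    rw [hc (sg w.1) (sg w.2), mul_assoc, ← mul_assoc (1 + sg z.2 • O k 1), sg_ne h2,
      half_opp (hO.sq k 1) _ (sg_sq _), zero_mul, mul_zero, smul_zero]
  · rw [hc (sg z.1) (sg z.2), mul_assoc, ← mul_assoc (1 + sg z.1 • O k 0), sg_ne h1,
      half_opp (hO.sq k 0) _ (sg_sq _), zero_mul, mul_zero, smul_zero]

theorem half_star {a : B} (ha : star a = a) (z : ZMod 2) : star (1 + sg z • a) = 1 + sg z • a := by
  rw [star_add, star_one, star_smul, ha, sg_star]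

theorem EP_star (hO : QSol O) (k : Fin 6) (z : ZMod 2 × ZMod 2) : star (EP O k z) = EP O k z := by
  unfold EP
  rw [star_smul, star_mul, half_star (hO.sa k 0), half_star (hO.sa k 1),
    ← half_comm (hO.comm k)]
  congr 1
  simp

theorem EP_sum (k : Fin 6) : ∑ z, EP O k z = 1 := by
  have h : ∀ z : ZMod 2, z = 0 ∨ z = 1 := by decide
  have hs : ∀ f : ZMod 2 → B, ∑ z, f z = f 0 + f 1 := fun f => Fin.sum_univ_two f
  rw [Fintype.sum_prod_type, hs, hs, hs]
  unfold EP
  simp only [sg, if_true, one_ne_zero, if_false, one_smul, neg_smul, ← smul_add]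
  rw [← mul_add, ← mul_add, ← add_mul]
  have e1 : (1 + O k 1 + (1 + -O k 1)) = (2 : ℂ) • (1 : B) := by rw [two_smul]; abel
  have e2 : (1 + O k 0 + (1 + -O k 0)) = (2 : ℂ) • (1 : B) := by rw [two_smul]; abel
  rw [e1, e2, smul_mul_smul_comm, smul_smul, mul_one]
  norm_num

/-- eigenvalue relation: the `j`-th observable acts on the projection by the sign of the `j`-th
value -/
theorem O_EP (hO : QSol O) (k : Fin 6) (z : ZMod 2 × ZMod 2) (j : Fin 3) :
    O k j * EP O k z = sg (val bm (k, z) j) • EP O k z := by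
  have g0 : O k 0 * (1 + sg z.1 • O k 0) = sg z.1 • (1 + sg z.1 • O k 0) := by
    rw [mul_add, mul_one, mul_smul_comm, hO.sq, smul_add, smul_smul, sg_sq, one_smul]
    abel
  have g1 : O k 1 * (1 + sg z.2 • O k 1) = sg z.2 • (1 + sg z.2 • O k 1) := by
    rw [mul_add, mul_one, mul_smul_comm, hO.sq, smul_add, smul_smul, sg_sq, one_smul]
    abel
  have c10 : O k 1 * (1 + sg z.1 • O k 0) = (1 + sg z.1 • O k 0) * O k 1 := by
    rw [mul_add, add_mul, mul_one, one_mul, mul_smul_comm, smul_mul_assoc, hO.comm]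
  have a0 : O k 0 * EP O k z = sg z.1 • EP O k z := by
    unfold EP
    rw [mul_smul_comm, ← mul_assoc, g0, smul_mul_assoc, smul_comm]
  have a1 : O k 1 * EP O k z = sg z.2 • EP O k z := by
    unfold EP
    rw [mul_smul_comm, ← mul_assoc, c10, mul_assoc, g1, mul_smul_comm, smul_comm]
  fin_cases j
  · exact a0
  · exact a1
  · show O k 2 * EP O k z = sg (bm k + z.1 + z.2) • EP O k z
    rw [hO.prod, smul_mul_assoc, mul_assoc, a1, mul_smul_comm, a0, smul_smul, smul_smul, sg_add,
      sg_add]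
    congr 1
    ring

theorem EP_O (hO : QSol O) (k : Fin 6) (z : ZMod 2 × ZMod 2) (j : Fin 3) :
    EP O k z * O k j = sg (val bm (k, z) j) • EP O k z := by
  have := congrArg star (O_EP hO k z j)
  rw [star_mul, star_smul, EP_star hO, hO.sa, sg_star] at this
  exact this

theorem cases6 : ∀ k : Fin 6, (∃ i : Fin 3, k = Fin.castAdd 3 i) ∨
    (∃ c : Fin 3, k = Fin.natAdd 3 c) := by decide

theorem EP_cross (hO : QSol O) (i c : Fin 3) (z w : ZMod 2 × ZMod 2)
    (h : val bm (Fin.castAdd 3 i, z) c ≠ val bm (Fin.natAdd 3 c, w) i) :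
    EP O (Fin.castAdd 3 i) z * EP O (Fin.natAdd 3 c) w = 0 := by
  have h1 := EP_O hO (Fin.castAdd 3 i) z c
  have h2 := O_EP hO (Fin.natAdd 3 c) w i
  have h3 : (EP O (Fin.castAdd 3 i) z * O (Fin.castAdd 3 i) c) * EP O (Fin.natAdd 3 c) w =
      EP O (Fin.castAdd 3 i) z * (O (Fin.natAdd 3 c) i * EP O (Fin.natAdd 3 c) w) := by
    rw [mul_assoc, hO.share]
  rw [h1, h2, smul_mul_assoc, mul_smul_comm, sg_ne h, neg_smul, ← sub_eq_zero, sub_neg_eq_add,
    ← two_smul ℂ, smul_smul] at h3
  have hne : (2 * sg (val bm (Fin.castAdd 3 i, z) c) : ℂ) ≠ 0 := by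
    apply mul_ne_zero two_ne_zero
    intro h0
    have := sg_sq (val bm (Fin.castAdd 3 i, z) c)
    rw [h0, zero_mul] at this
    exact zero_ne_one this
  exact (smul_eq_zero.1 h3).resolve_left hne

/-- the quantum permutation -/
noncomputable def QP (O : Fin 6 → Fin 3 → B) (v w : MV) : B :=
  if v.1 = w.1 then EP O v.1 (v.2 + w.2) else 0

theorem val_add (k : Fin 6) (z w : ZMod 2 × ZMod 2) (j : Fin 3) :
    val bm (k, z + w) j = val bm (k, z) j + val b0 (k, w) j := by
  fin_cases j
  · rfl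
  · rfl
  · show bm k + (z.1 + w.1) + (z.2 + w.2) = (bm k + z.1 + z.2) + (0 + w.1 + w.2)
    ring

theorem add_cancel' {x y x' y' : ZMod 2 × ZMod 2} (h : x + y = x' + y') :
    (x = x' ↔ y = y') := by
  constructor
  · rintro rfl; exact add_left_cancel h
  · rintro rfl; exact add_right_cancel h

theorem val_ne_of {b : Fin 6 → ZMod 2} {i c : Fin 3} {x x' : ZMod 2 × ZMod 2} :
    (MG b).Adj (Fin.castAdd 3 i, x) (Fin.natAdd 3 c, x') ↔
      val b (Fin.castAdd 3 i, x) c ≠ val b (Fin.natAdd 3 c, x') i := by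
  constructor
  · rintro (h | ⟨i', c', h1, h2, h3⟩ | ⟨i', c', h1, h2, h3⟩)
    · exact absurd h.1 (row_ne_col i c)
    · have e1 : i = i' := by
        have : (Fin.castAdd 3 i : Fin 6) = Fin.castAdd 3 i' := h1
        exact Fin.castAdd_injective _ _ this
      have e2 : c = c' := by
        have : (Fin.natAdd 3 c : Fin 6) = Fin.natAdd 3 c' := h2
        exact Fin.natAdd_injective _ _ this
      subst e1 e2
      exact h3
    · exact absurd h1.symm (row_ne_col i' c)
  · intro h
    exact Or.inr (Or.inl ⟨i, c, rfl, rfl, h⟩)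

theorem not_adj_rows {b : Fin 6 → ZMod 2} {i j : Fin 3} {x x' : ZMod 2 × ZMod 2} (hij : i ≠ j) :
    ¬ (MG b).Adj (Fin.castAdd 3 i, x) (Fin.castAdd 3 j, x') := by
  rintro (h | ⟨i', c', h1, h2, h3⟩ | ⟨i', c', h1, h2, h3⟩)
  · exact hij (Fin.castAdd_injective _ _ h.1)
  · exact row_ne_col j c' h2
  · exact row_ne_col i c' h2

theorem not_adj_cols {b : Fin 6 → ZMod 2} {i j : Fin 3} {x x' : ZMod 2 × ZMod 2} (hij : i ≠ j) :
    ¬ (MG b).Adj (Fin.natAdd 3 i, x) (Fin.natAdd 3 j, x') := by
  rintro (h | ⟨i', c', h1, h2, h3⟩ | ⟨i', c', h1, h2, h3⟩)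
  · exact hij (Fin.natAdd_injective _ _ h.1)
  · exact row_ne_col i' i h1.symm
  · exact row_ne_col i' j h1.symm

theorem QP_rel (hO : QSol O) : IsoGameRel (MG bm) (MG b0) (QP O) where
  idem v w := by
    unfold QP
    split_ifs
    · exact EP_idem hO _ _
    · exact mul_zero _
  selfadj v w := by
    unfold QP
    split_ifs
    · exact EP_star hO _ _
    · exact star_zero _
  row v := by
    obtain ⟨k, x⟩ := v
    rw [Fintype.sum_prod_type, Finset.sum_eq_single k]
    · unfold QP
      simp only [if_true]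
      rw [Fintype.sum_equiv (Equiv.addLeft x) (fun y => EP O k (x + y)) (fun y => EP O k y)
        (fun y => rfl)]
      exact EP_sum k
    · intro l _ hl
      apply Finset.sum_eq_zero
      intro y _
      unfold QP
      exact if_neg (fun h => hl h.symm)
    · intro h
      exact absurd (Finset.mem_univ _) h
  col v := by
    obtain ⟨k, x⟩ := v
    rw [Fintype.sum_prod_type, Finset.sum_eq_single k]
    · unfold QP
      simp only [if_true]
      rw [Fintype.sum_equiv (Equiv.addRight x) (fun y => EP O k (y + x)) (fun y => EP O k y)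
        (fun y => rfl)]
      exact EP_sum k
    · intro l _ hl
      apply Finset.sum_eq_zero
      intro y _
      unfold QP
      exact if_neg (fun h => hl h)
    · intro h
      exact absurd (Finset.mem_univ _) h
  zero v v' w w' hn := by
    obtain ⟨k, x⟩ := v
    obtain ⟨l, x'⟩ := v'
    obtain ⟨k₁, y⟩ := w
    obtain ⟨l₁, y'⟩ := w'
    unfold QP
    by_cases hk : k = k₁
    swap
    · rw [if_neg hk, zero_mul]
    by_cases hl : l = l₁
    swap
    · rw [if_neg hl, mul_zero]
    subst hk hl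
    rw [if_pos rfl, if_pos rfl]
    show EP O k (x + y) * EP O l (x' + y') = 0
    by_cases hkl : k = l
    · subst hkl
      apply EP_ortho hO
      intro hxy
      apply hn
      have hiff := add_cancel' hxy
      by_cases hx : x = x'
      · left
        exact ⟨by rw [hx], by rw [hiff.1 hx]⟩
      · right; left
        have hy : y ≠ y' := fun h => hx (hiff.2 h)
        exact ⟨Or.inl ⟨rfl, hx⟩, Or.inl ⟨rfl, hy⟩⟩
    · -- different equations
      have hne : ∀ (s t : ZMod 2 × ZMod 2), ((k, s) : MV) ≠ (l, t) :=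
        fun s t h => hkl (congrArg Prod.fst h)
      -- not in the same relation: exactly one of the two pairs is adjacent
      have hx : ¬ ((MG bm).Adj (k, x) (l, x') ↔ (MG b0).Adj (k, y) (l, y')) := by
        intro hiff
        apply hn
        by_cases ha : (MG bm).Adj (k, x) (l, x')
        · exact Or.inr (Or.inl ⟨ha, hiff.1 ha⟩)
        · exact Or.inr (Or.inr ⟨hne _ _, ha, hne _ _, fun h => ha (hiff.2 h)⟩)
      rcases cases6 k with ⟨i, rfl⟩ | ⟨c, rfl⟩
      · rcases cases6 l with ⟨j, rfl⟩ | ⟨c, rfl⟩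
        · exfalso
          have hij : i ≠ j := fun h => hkl (by rw [h])
          exact hx ⟨fun h => absurd h (not_adj_rows hij), fun h => absurd h (not_adj_rows hij)⟩
        · apply EP_cross hO
          intro heq
          rw [val_add, val_add] at heq
          apply hx
          rw [val_ne_of, val_ne_of, not_iff_not]
          constructor
          · intro h; rw [h] at heq; exact add_left_cancel heq
          · intro h; rw [h] at heq; exact add_right_cancel heq
      · rcases cases6 l with ⟨i, rfl⟩ | ⟨d, rfl⟩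
        · have key : EP O (Fin.castAdd 3 i) (x' + y') * EP O (Fin.natAdd 3 c) (x + y) = 0 := by
            apply EP_cross hO
            intro heq
            rw [val_add, val_add] at heq
            apply hx
            rw [SimpleGraph.adj_comm, val_ne_of, SimpleGraph.adj_comm, val_ne_of, not_iff_not]
            constructor
            · intro h; rw [h] at heq; exact add_left_cancel heq
            · intro h; rw [h] at heq; exact add_right_cancel heq
          have := congrArg star key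
          rw [star_mul, EP_star hO, EP_star hO, star_zero] at this
          exact this
        · exfalso
          have hij : c ≠ d := fun h => hkl (by rw [h])
          exact hx ⟨fun h => absurd h (not_adj_cols hij), fun h => absurd h (not_adj_cols hij)⟩

end quantum

/-! ### The Mermin-Peres operators -/

/-- integer matrices of the Mermin-Peres square, listed by equation -/
def OZ : Fin 6 → Fin 3 → Matrix (Fin 4) (Fin 4) ℤ :=
  let XI : Matrix (Fin 4) (Fin 4) ℤ := !![0,0,1,0; 0,0,0,1; 1,0,0,0; 0,1,0,0]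
  let IX : Matrix (Fin 4) (Fin 4) ℤ := !![0,1,0,0; 1,0,0,0; 0,0,0,1; 0,0,1,0]
  let XX : Matrix (Fin 4) (Fin 4) ℤ := !![0,0,0,1; 0,0,1,0; 0,1,0,0; 1,0,0,0]
  let IZ : Matrix (Fin 4) (Fin 4) ℤ := !![1,0,0,0; 0,-1,0,0; 0,0,1,0; 0,0,0,-1]
  let ZI : Matrix (Fin 4) (Fin 4) ℤ := !![1,0,0,0; 0,1,0,0; 0,0,-1,0; 0,0,0,-1]
  let ZZ : Matrix (Fin 4) (Fin 4) ℤ := !![1,0,0,0; 0,-1,0,0; 0,0,-1,0; 0,0,0,1]
  let XZ : Matrix (Fin 4) (Fin 4) ℤ := !![0,0,1,0; 0,0,0,-1; 1,0,0,0; 0,-1,0,0]
  let ZX : Matrix (Fin 4) (Fin 4) ℤ := !![0,1,0,0; 1,0,0,0; 0,0,0,-1; 0,0,-1,0]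
  let YY : Matrix (Fin 4) (Fin 4) ℤ := !![0,0,0,-1; 0,0,1,0; 0,1,0,0; -1,0,0,0]
  ![![XI, IX, XX], ![IZ, ZI, ZZ], ![XZ, ZX, YY],
    ![XI, IZ, XZ], ![IX, ZI, ZX], ![XX, ZZ, YY]]

theorem OZ_sq : ∀ k j, OZ k j * OZ k j = 1 := by decide +kernel
theorem OZ_sa : ∀ k j, (OZ k j)ᵀ = OZ k j := by decide +kernel
theorem OZ_comm : ∀ k, OZ k 0 * OZ k 1 = OZ k 1 * OZ k 0 := by decide +kernel
theorem OZ_prod : ∀ k, OZ k 2 = (if bm k = 0 then (1 : ℤ) else -1) • (OZ k 0 * OZ k 1) := by
  decide +kernel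
theorem OZ_share : ∀ i c : Fin 3, OZ (Fin.castAdd 3 i) c = OZ (Fin.natAdd 3 c) i := by
  decide +kernel

open scoped Matrix.Norms.L2Operator in
theorem exists_quantum : ∃ (B : Type) (_ : CStarAlgebra B) (_ : Nontrivial B) (q : MV → MV → B),
    IsoGameRel (MG bm) (MG b0) q := by
  let f : Matrix (Fin 4) (Fin 4) ℤ →+* Matrix (Fin 4) (Fin 4) ℂ := (Int.castRingHom ℂ).mapMatrix
  have hstar : ∀ M : Matrix (Fin 4) (Fin 4) ℤ, star (f M) = f Mᵀ := by
    intro M
    ext i j
    simp [f]
  refine ⟨Matrix (Fin 4) (Fin 4) ℂ, inferInstance, inferInstance, QP (fun k j => f (OZ k j)), ?_⟩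
  apply QP_rel
  refine ⟨fun k j => ?_, fun k j => ?_, fun k => ?_, fun k => ?_, fun i c => ?_⟩
  · rw [← map_mul, OZ_sq, map_one]
  · rw [hstar, OZ_sa]
  · rw [← map_mul, ← map_mul, OZ_comm]
  · rw [OZ_prod, map_zsmul, map_mul]
    unfold sg
    split_ifs
    · rw [one_smul, one_smul]
    · rw [neg_smul, neg_smul, one_smul, one_smul]
  · rw [OZ_share]

end Pool.Agent.H94R2.Iso
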